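import Mathlib

/-!
# Abstract polyhedra, equivelar polyhedra, dualities and polarities
-/

set_option autoImplicit false

namespace Pool.Agent.Q274.Pol

/-- the flags are the maximal chains -/
def IsFlag {P : Type} [PartialOrder P] (Φ : Set P) : Prop := IsMaxChain (· ≤ ·) Φ

/-- two flags which differ in exactly one face -/
def Adjacent {P : Type} (Φ Ψ : Set P) : Prop := (Φ \ Ψ).ncard = 1 ∧ (Ψ \ Φ).ncard = 1

/-- Abstract polyhedra (abstract polytopes of rank `3`): partially ordered sets with a strictly monotone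
rank function onto `{-1, 0, 1, 2, 3}`, a unique least and a unique greatest face, such that every flag
has exactly `5` elements, with the diamond condition, and which are strongly flag-connected: any two
flags `Φ`, `Ψ` are joined by a sequence of flags, each containing `Φ ∩ Ψ` and differing from the next
one in exactly one face. -/
structure IsPolyhedron (P : Type) [PartialOrder P] (rank : P → ℤ) : Prop where
  strictMono : StrictMono rank
  range : Set.range rank = {-1, 0, 1, 2, 3}
  least : ∃! x : P, ∀ y, x ≤ y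
  greatest : ∃! x : P, ∀ y, y ≤ x
  flag_card : ∀ Φ : Set P, IsFlag Φ → Φ.ncard = 5
  diamond : ∀ F G : P, F ≤ G → rank G = rank F + 2 →
    {H : P | F ≤ H ∧ H ≤ G ∧ rank H = rank F + 1}.ncard = 2
  connected : ∀ Φ Ψ : Set P, IsFlag Φ → IsFlag Ψ → Relation.ReflTransGen
    (fun A B => IsFlag A ∧ IsFlag B ∧ Adjacent A B ∧ Φ ∩ Ψ ⊆ A ∧ Φ ∩ Ψ ⊆ B) Φ Ψ

/-- The polyhedron is equivelar of type `{p, q}`: every `2`-face is a `p`-gon, that is, contains exactly
`p` vertices and exactly `p` edges, and every vertex-figure is a `q`-gon, that is, every vertex lies on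
exactly `q` edges and exactly `q` faces of rank `2`. -/
def IsEquivelar (P : Type) [PartialOrder P] (rank : P → ℤ) (p q : ℕ) : Prop :=
  (∀ G : P, rank G = 2 → {H : P | rank H = 0 ∧ H ≤ G}.ncard = p ∧
    {H : P | rank H = 1 ∧ H ≤ G}.ncard = p) ∧
  (∀ G : P, rank G = 0 → {H : P | rank H = 1 ∧ G ≤ H}.ncard = q ∧
    {H : P | rank H = 2 ∧ G ≤ H}.ncard = q)

/-- dualities: bijections `δ` with `F ≤ G` if and only if `δ G ≤ δ F` -/
def IsDuality {P : Type} [PartialOrder P] (δ : P ≃ P) : Prop := ∀ F G : P, F ≤ G ↔ δ G ≤ δ F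

end Pool.Agent.Q274.Pol
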