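import Mathlib
import Pool.Agent.Q274.Pol.Def

/-!
# A polyhedron of type `{5, 5}` with `16` vertices: tables and computations

The flags are numbered `0, ..., 159`: the flag `4 j + 2 s + t` contains the edge `j`, its vertex number
`s` and its `2`-face number `t`. The numbers below are tables in base `16` or `256`.
-/

set_option autoImplicit false

namespace Pool.Agent.Q274.Pol

/-- table lookup -/
def tab (T b i : ℕ) : ℕ := (T >>> (b * i)) % 2 ^ b

/-- table of the vertices of the edges -/
def vT : ℕ := 1952196344178883336644897117412314027423754869135524633200552751462727973094226246261223691661840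
/-- table of the faces of the edges -/
def fT : ℕ := 2127119435336206525164188264640838694716657092341587042376749840547257192512602031765539619090960
/-- table of the adjacency of flags in rank one -/
def rT : ℕ := 11998450488597266084931402357114298526458268520154323321682150167165878416866910997008932836558705639170474449428453997385553811952381566946512342527019166038237737426194164414646622550243603555795785019204774493040608653592917360054762307106313179863723685550798871251527642247415809101169594499603360687639110533822570167767386184323647375645201336900430040659141597029761314365522440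
/-- distances to the flag `0` -/
def hA : ℕ := 734678807404469158945691402979771596102848941815273535736254421814182128095768529430399974038656745214399595185784871849491746552473998513330381060867479338263260718175238240081085694643960346369207731447632400842939119799171739113832560903244087359308604694118370918181826775014763709812680712608619686686199325834569706295330350391338150369458930527580487860152502091977082752008448
/-- distances around the vertices -/
def hV : ℕ := 326840992700378932025786001577677775063620020854747670056601579104822692135343940612334055176254275184956817853771752469943669768180342309116861819794833657960809745023763140310327435751799857323000200246943438518248480523400128573373339336711734689059552341495612067897569762391825378545682845755462246393676356050906172454673657622165035568712498774100805342320097620258422232449280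
/-- distances around the faces -/
def hF : ℕ := 244893758103029427869799497001510690993255265674907734590613816579827916760360765649146068607330332201620987139856792644007936877795420093571390108408331733920536386942864155022497674394396051313348510510724761445027621950607056102022059415004162159022751722324164013262148210130881837128264645914334541574500866398123206957660264011122311424110087015175402786047340776781520656465920
/-- one flag at every vertex -/
def rootV : ℕ := 125416000442451933597547372197663998464
/-- one flag at every face -/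
def rootF : ℕ := 145432773146976027833871922210518860032
/-- a duality on the flags -/
def dT : ℕ := 1223826106031158607308703842587462260742263716040049974079431539979991423799992406025990763058895860920998419620789945047928426530240672812010544169563143234114505334072624890565998652428100127085099329506792945313482417400225411285350154722588179017488602266898620286384308105194593514203093178763569128549469113895716321952668142606089583060153101886381815176410945658684471318833515

/-- the duality on the vertices -/
def dvT : ℕ := 5034065747029753710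
/-- the duality on the edges -/
def deT : ℕ := 25098455544146660632481118708610629534505927655750320203659566938060009913136853502801855585050
/-- the duality on the `2`-faces -/
def dfT : ℕ := 201910652053125225

/-- the vertex of a flag -/
def V (x : Fin 160) : Fin 16 := Fin.ofNat 16 (tab vT 4 (x.1 / 2))
/-- the edge of a flag -/
def E (x : Fin 160) : Fin 40 := Fin.ofNat 40 (x.1 / 4)
/-- the `2`-face of a flag -/
def F (x : Fin 160) : Fin 16 := Fin.ofNat 16 (tab fT 4 (2 * (x.1 / 4) + x.1 % 2))
/-- the flag with the same edge and face -/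
def r0 (x : Fin 160) : Fin 160 := Fin.ofNat 160 (if x.1 % 4 < 2 then x.1 + 2 else x.1 - 2)
/-- the flag with the same vertex and face -/
def r1 (x : Fin 160) : Fin 160 := Fin.ofNat 160 (tab rT 8 x.1)
/-- the flag with the same vertex and edge -/
def r2 (x : Fin 160) : Fin 160 := Fin.ofNat 160 (if x.1 % 2 = 0 then x.1 + 1 else x.1 - 1)
/-- a duality -/
def d (x : Fin 160) : Fin 160 := Fin.ofNat 160 (tab dT 8 x.1)

/-- the flags of an edge -/
theorem EE : ∀ x y : Fin 160, E x = E y → x = y ∨ y = r0 x ∨ y = r2 x ∨ y = r0 (r2 x) := by
  intro x y h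
  have h1 : x.1 / 4 = y.1 / 4 := by
    have h2 := congrArg Fin.val h
    simp only [E, Fin.ofNat] at h2
    have hx := x.2
    have hy := y.2
    omega
  have hx := x.2
  have hy := y.2
  by_cases a1 : x.1 % 4 < 2 <;> by_cases a2 : x.1 % 2 = 0 <;> by_cases b1 : y.1 % 4 < 2 <;>
    by_cases b2 : y.1 % 2 = 0 <;> simp only [Fin.ext_iff, r0, r2, Fin.ofNat, a1, a2, if_true, if_false] <;>
    (try split_ifs) <;> omega

theorem N0 : ∀ x : Fin 160, V (r0 x) ≠ V x ∧ E (r0 x) = E x ∧ F (r0 x) = F x := by decide +kernel

theorem N1 : ∀ x : Fin 160, V (r1 x) = V x ∧ E (r1 x) ≠ E x ∧ F (r1 x) = F x := by decide +kernel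

theorem N2 : ∀ x : Fin 160, V (r2 x) = V x ∧ E (r2 x) = E x ∧ F (r2 x) ≠ F x := by decide +kernel

theorem invo : ∀ x : Fin 160, r0 (r0 x) = x ∧ r1 (r1 x) = x ∧ r2 (r2 x) = x := by decide +kernel

theorem U0 (x y : Fin 160) (h : E x = E y) (h' : F x = F y) : x = y ∨ y = r0 x := by
  rcases EE x y h with h1 | h1 | h1 | h1
  · exact Or.inl h1
  · exact Or.inr h1
  · exact absurd (by rw [h', h1]) (N2 x).2.2
  · exact absurd (by rw [h', h1, (N0 (r2 x)).2.2]) (N2 x).2.2

theorem U2 (x y : Fin 160) (h : V x = V y) (h' : E x = E y) : x = y ∨ y = r2 x := by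
  rcases EE x y h' with h1 | h1 | h1 | h1
  · exact Or.inl h1
  · exact absurd (by rw [h, h1]) (N0 x).1
  · exact Or.inr h1
  · exact absurd (by rw [← h1, ← h, (N2 x).1]) (N0 (r2 x)).1

theorem U1 : ∀ x y : Fin 160, V x = V y → F x = F y → x = y ∨ y = r1 x := by decide +kernel

theorem mix (x y : Fin 160) (h : E x = E y) : ∃ z, V z = V x ∧ E z = E x ∧ F z = F y := by
  rcases EE x y h with h1 | h1 | h1 | h1
  · exact ⟨x, rfl, rfl, by rw [h1]⟩
  · exact ⟨x, rfl, rfl, by rw [h1, (N0 x).2.2]⟩
  · exact ⟨r2 x, (N2 x).1, (N2 x).2.1, by rw [h1]⟩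
  · exact ⟨r2 x, (N2 x).1, (N2 x).2.1, by rw [h1, (N0 (r2 x)).2.2]⟩

theorem surjV : ∀ i : Fin 16, V (Fin.ofNat 160 (tab rootV 8 i.1)) = i := by decide +kernel

theorem surjF : ∀ i : Fin 16, F (Fin.ofNat 160 (tab rootF 8 i.1)) = i := by decide +kernel

theorem surjE : ∀ i : Fin 40, E (Fin.ofNat 160 (4 * i.1)) = i := by decide +kernel

theorem potA : ∀ x : Fin 160, x = 0 ∨ tab hA 8 (r0 x).1 < tab hA 8 x.1 ∨
    tab hA 8 (r1 x).1 < tab hA 8 x.1 ∨ tab hA 8 (r2 x).1 < tab hA 8 x.1 := by decide +kernel

theorem potV : ∀ x : Fin 160, x = Fin.ofNat 160 (tab rootV 8 (V x).1) ∨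
    tab hV 8 (r1 x).1 < tab hV 8 x.1 ∨ tab hV 8 (r2 x).1 < tab hV 8 x.1 := by decide +kernel

theorem potF : ∀ x : Fin 160, x = Fin.ofNat 160 (tab rootF 8 (F x).1) ∨
    tab hF 8 (r0 x).1 < tab hF 8 x.1 ∨ tab hF 8 (r1 x).1 < tab hF 8 x.1 := by decide +kernel

/-- the generators -/
def r (i : Fin 3) (x : Fin 160) : Fin 160 := if i = 0 then r0 x else if i = 1 then r1 x else r2 x

/-- words -/
def act (w : List (Fin 3)) (x : Fin 160) : Fin 160 := w.foldl (fun y i => r i y) x

/-- words with the generators `0` and `2` exchanged -/
def act' (w : List (Fin 3)) (x : Fin 160) : Fin 160 := w.foldl (fun y i => r (2 - i) y) x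

/-- a closed word at the flag `0` -/
def wC : List (Fin 3) := [1, 2, 1, 0, 2, 1, 0, 2, 1, 0, 1, 2, 1, 0, 1, 2, 0]

/-- a word from the flag `0` to the flag `107` -/
def wA : List (Fin 3) := [0, 1, 0, 1, 2, 1, 0, 2]

/-- a word from the flag `0` to the flag `111` -/
def wB : List (Fin 3) := [0, 2, 1, 0, 1, 2, 1, 2]

theorem closedC : act wC 0 = 0 := by decide +kernel

theorem actA : act wA 0 = 107 ∧ act' wA 107 ≠ 0 := by decide +kernel

theorem actB : act wB 0 = 111 ∧ act' wB 111 ≠ 0 := by decide +kernel

theorem cert : ∀ t : Fin 160, t = 107 ∨ t = 111 ∨ act' wC t ≠ t := by decide +kernel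

theorem dual_d : ∀ x : Fin 160, d (r0 x) = r2 (d x) ∧ d (r1 x) = r1 (d x) ∧ d (r2 x) = r0 (d x) := by
  decide +kernel

/-- the duality on the vertices -/
def dv (i : Fin 16) : Fin 16 := Fin.ofNat 16 (tab dvT 4 i.1)
/-- the duality on the edges -/
def de (i : Fin 40) : Fin 40 := Fin.ofNat 40 (tab deT 8 i.1)
/-- the duality on the `2`-faces -/
def df (i : Fin 16) : Fin 16 := Fin.ofNat 16 (tab dfT 4 i.1)

theorem d_class : ∀ x : Fin 160, F (d x) = dv (V x) ∧ E (d x) = de (E x) ∧ V (d x) = df (F x) := by
  decide +kernel

theorem d_four : ∀ x : Fin 160, d (d (d (d x))) = x := by decide +kernel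

theorem dv_inj : Function.Injective dv := by decide +kernel

theorem de_inj : Function.Injective de := by decide +kernel

theorem df_inj : Function.Injective df := by decide +kernel

theorem vert : ∀ x : Fin 160, V x = V (Fin.ofNat 160 (4 * (E x).1)) ∨
    V x = V (Fin.ofNat 160 (4 * (E x).1 + 2)) := by decide +kernel

theorem face : ∀ x : Fin 160, F x = F (Fin.ofNat 160 (4 * (E x).1)) ∨
    F x = F (Fin.ofNat 160 (4 * (E x).1 + 1)) := by decide +kernel

theorem E4 : ∀ j : Fin 40, E (Fin.ofNat 160 (4 * j.1)) = j ∧ E (Fin.ofNat 160 (4 * j.1 + 2)) = j ∧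
    E (Fin.ofNat 160 (4 * j.1 + 1)) = j := by decide +kernel

theorem ne4 : ∀ j : Fin 40, V (Fin.ofNat 160 (4 * j.1)) ≠ V (Fin.ofNat 160 (4 * j.1 + 2)) ∧
    F (Fin.ofNat 160 (4 * j.1)) ≠ F (Fin.ofNat 160 (4 * j.1 + 1)) := by decide +kernel

theorem VE_iff (i : Fin 16) (j : Fin 40) : (∃ x, V x = i ∧ E x = j) ↔
    V (Fin.ofNat 160 (4 * j.1)) = i ∨ V (Fin.ofNat 160 (4 * j.1 + 2)) = i := by
  constructor
  · rintro ⟨x, rfl, rfl⟩
    rcases vert x with h | h
    · exact Or.inl h.symm
    · exact Or.inr h.symm
  · rintro (h | h)
    · exact ⟨_, h, (E4 j).1⟩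
    · exact ⟨_, h, (E4 j).2.1⟩

theorem EF_iff (j : Fin 40) (k : Fin 16) : (∃ x, E x = j ∧ F x = k) ↔
    F (Fin.ofNat 160 (4 * j.1)) = k ∨ F (Fin.ofNat 160 (4 * j.1 + 1)) = k := by
  constructor
  · rintro ⟨x, rfl, rfl⟩
    rcases face x with h | h
    · exact Or.inl h.symm
    · exact Or.inr h.symm
  · rintro (h | h)
    · exact ⟨_, (E4 j).1, h⟩
    · exact ⟨_, (E4 j).2.2, h⟩

theorem card_VF0 : ∀ x : Fin 160, (Finset.univ.filter (fun j : Fin 40 =>
    (V (Fin.ofNat 160 (4 * j.1)) = V x ∨ V (Fin.ofNat 160 (4 * j.1 + 2)) = V x) ∧
    (F (Fin.ofNat 160 (4 * j.1)) = F x ∨ F (Fin.ofNat 160 (4 * j.1 + 1)) = F x))).card = 2 := by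
  decide +kernel

theorem card_FV : ∀ k : Fin 16,
    ((Finset.univ.filter (fun x : Fin 160 => F x = k)).image V).card = 5 := by decide +kernel

theorem card_FE : ∀ k : Fin 16,
    ((Finset.univ.filter (fun x : Fin 160 => F x = k)).image E).card = 5 := by decide +kernel

theorem card_VE : ∀ k : Fin 16,
    ((Finset.univ.filter (fun x : Fin 160 => V x = k)).image E).card = 5 := by decide +kernel

theorem card_VF : ∀ k : Fin 16,
    ((Finset.univ.filter (fun x : Fin 160 => V x = k)).image F).card = 5 := by decide +kernel

end Pool.Agent.Q274.Pol
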