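import Mathlib
import Pool.Agent.Q274.Pol.Def
import Pool.Agent.Q274.Pol.Tab

/-!
# The polyhedron
-/

set_option autoImplicit false

namespace Pool.Agent.Q274.Pol

/-- the faces -/
inductive Face where
  | bot : Face
  | v (i : Fin 16) : Face
  | e (j : Fin 40) : Face
  | f (k : Fin 16) : Face
  | top : Face

namespace Face

/-- the rank -/
def rk : Face → ℤ
  | bot => -1
  | v _ => 0
  | e _ => 1
  | f _ => 2
  | top => 3

/-- incidence -/
def le : Face → Face → Prop
  | bot, _ => True
  | _, top => True
  | v i, v j => i = j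
  | v i, e j => ∃ x, V x = i ∧ E x = j
  | v i, f k => ∃ x, V x = i ∧ F x = k
  | e i, e j => i = j
  | e j, f k => ∃ x, E x = j ∧ F x = k
  | f i, f j => i = j
  | _, _ => False

theorem le_trans' : ∀ a b c : Face, le a b → le b c → le a c := by
  intro a b c hab hbc
  cases a with
  | bot => cases c <;> trivial
  | top => cases b with
    | top => cases c with
      | top => trivial
      | bot => exact hbc
      | v i => exact hbc
      | e i => exact hbc
      | f i => exact hbc
    | bot => exact absurd hab (by intro h; exact h)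
    | v i => exact absurd hab (by intro h; exact h)
    | e i => exact absurd hab (by intro h; exact h)
    | f i => exact absurd hab (by intro h; exact h)
  | v i => cases b with
    | bot => exact absurd hab (by intro h; exact h)
    | top => cases c with
      | top => trivial
      | bot => exact absurd hbc (by intro h; exact h)
      | v i => exact absurd hbc (by intro h; exact h)
      | e i => exact absurd hbc (by intro h; exact h)
      | f i => exact absurd hbc (by intro h; exact h)
    | v j => have h : i = j := hab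
             subst h
             exact hbc
    | e j => cases c with
      | bot => exact absurd hbc (by intro h; exact h)
      | top => trivial
      | v k => exact absurd hbc (by intro h; exact h)
      | e k => have h : j = k := hbc
               subst h
               exact hab
      | f k =>
        obtain ⟨x, h1, h2⟩ := hab
        obtain ⟨y, h3, h4⟩ := hbc
        obtain ⟨z, h5, h6, h7⟩ := mix x y (h2.trans h3.symm)
        exact ⟨z, h5.trans h1, h7.trans h4⟩
    | f j => cases c with
      | bot => exact absurd hbc (by intro h; exact h)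
      | top => trivial
      | v k => exact absurd hbc (by intro h; exact h)
      | e k => exact absurd hbc (by intro h; exact h)
      | f k => have h : j = k := hbc
               subst h
               exact hab
  | e i => cases b with
    | bot => exact absurd hab (by intro h; exact h)
    | v j => exact absurd hab (by intro h; exact h)
    | top => cases c with
      | top => trivial
      | bot => exact absurd hbc (by intro h; exact h)
      | v i => exact absurd hbc (by intro h; exact h)
      | e i => exact absurd hbc (by intro h; exact h)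
      | f i => exact absurd hbc (by intro h; exact h)
    | e j => have h : i = j := hab
             subst h
             exact hbc
    | f j => cases c with
      | bot => exact absurd hbc (by intro h; exact h)
      | top => trivial
      | v k => exact absurd hbc (by intro h; exact h)
      | e k => exact absurd hbc (by intro h; exact h)
      | f k => have h : j = k := hbc
               subst h
               exact hab
  | f i => cases b with
    | bot => exact absurd hab (by intro h; exact h)
    | v j => exact absurd hab (by intro h; exact h)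
    | e j => exact absurd hab (by intro h; exact h)
    | top => cases c with
      | top => trivial
      | bot => exact absurd hbc (by intro h; exact h)
      | v i => exact absurd hbc (by intro h; exact h)
      | e i => exact absurd hbc (by intro h; exact h)
      | f i => exact absurd hbc (by intro h; exact h)
    | f j => have h : i = j := hab
             subst h
             exact hbc

theorem le_antisymm' : ∀ a b : Face, le a b → le b a → a = b := by
  intro a b hab hba
  cases a <;> cases b <;> first
    | rfl
    | exact absurd hab (by intro h; exact h)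
    | exact absurd hba (by intro h; exact h)
    | (have h := hab; simp only [le] at h; rw [h])

instance : PartialOrder Face where
  le := le
  le_refl := by intro a; cases a <;> simp [le]
  le_trans := le_trans'
  le_antisymm := le_antisymm'

theorem le_def (a b : Face) : a ≤ b ↔ le a b := Iff.rfl

@[simp] theorem bot_le' (a : Face) : bot ≤ a := by cases a <;> trivial
@[simp] theorem le_top' (a : Face) : a ≤ top := by cases a <;> trivial
@[simp] theorem v_le_v (i j) : v i ≤ v j ↔ i = j := Iff.rfl
@[simp] theorem v_le_e (i j) : v i ≤ e j ↔ ∃ x, V x = i ∧ E x = j := Iff.rfl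
@[simp] theorem v_le_f (i k) : v i ≤ f k ↔ ∃ x, V x = i ∧ F x = k := Iff.rfl
@[simp] theorem e_le_e (i j) : e i ≤ e j ↔ i = j := Iff.rfl
@[simp] theorem e_le_f (j k) : e j ≤ f k ↔ ∃ x, E x = j ∧ F x = k := Iff.rfl
@[simp] theorem f_le_f (i j) : f i ≤ f j ↔ i = j := Iff.rfl
@[simp] theorem e_le_v (i j) : ¬ e i ≤ v j := fun h => h
@[simp] theorem f_le_v (i j) : ¬ f i ≤ v j := fun h => h
@[simp] theorem f_le_e (i j) : ¬ f i ≤ e j := fun h => h
@[simp] theorem v_le_bot (i) : ¬ v i ≤ bot := fun h => h
@[simp] theorem e_le_bot (i) : ¬ e i ≤ bot := fun h => h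
@[simp] theorem f_le_bot (i) : ¬ f i ≤ bot := fun h => h
@[simp] theorem top_le_bot : ¬ top ≤ bot := fun h => h
@[simp] theorem top_le_v (i) : ¬ top ≤ v i := fun h => h
@[simp] theorem top_le_e (i) : ¬ top ≤ e i := fun h => h
@[simp] theorem top_le_f (i) : ¬ top ≤ f i := fun h => h

theorem rk_strict : StrictMono rk := by
  intro a b h
  obtain ⟨h1, h2⟩ := lt_iff_le_not_ge.1 h
  cases a <;> cases b <;> simp [rk] at h1 h2 ⊢
  all_goals exact h2 h1.symm

theorem rk_range : Set.range rk = {-1, 0, 1, 2, 3} := by
  ext z
  simp only [Set.mem_range, Set.mem_insert_iff, Set.mem_singleton_iff]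
  constructor
  · rintro ⟨a, rfl⟩
    cases a <;> simp [rk]
  · rintro (rfl | rfl | rfl | rfl | rfl)
    · exact ⟨bot, rfl⟩
    · exact ⟨v 0, rfl⟩
    · exact ⟨e 0, rfl⟩
    · exact ⟨f 0, rfl⟩
    · exact ⟨top, rfl⟩

end Face

open Face

/-- the flag number `x` -/
def fl (x : Fin 160) : Set Face := {bot, v (V x), e (E x), f (F x), top}

theorem mem_fl (x : Fin 160) (a : Face) : a ∈ fl x ↔
    a = bot ∨ a = v (V x) ∨ a = e (E x) ∨ a = f (F x) ∨ a = top := Iff.rfl

theorem fl_chain (x : Fin 160) : IsChain (· ≤ ·) (fl x) := by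
  intro a ha b hb hab
  rw [mem_fl] at ha hb
  rcases ha with rfl | rfl | rfl | rfl | rfl <;> rcases hb with rfl | rfl | rfl | rfl | rfl <;>
    first
    | exact absurd rfl hab
    | exact Or.inl (bot_le' _)
    | exact Or.inr (bot_le' _)
    | exact Or.inl (le_top' _)
    | exact Or.inr (le_top' _)
    | exact Or.inl ⟨x, rfl, rfl⟩
    | exact Or.inr ⟨x, rfl, rfl⟩

theorem same_rank {C : Set Face} (hC : IsChain (· ≤ ·) C) {a b : Face} (ha : a ∈ C) (hb : b ∈ C)
    (h : rk a = rk b) : a = b := by
  by_contra hne
  rcases hC ha hb hne with h1 | h1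
  · have := rk_strict (lt_of_le_of_ne h1 hne)
    omega
  · have := rk_strict (lt_of_le_of_ne h1 (Ne.symm hne))
    omega

theorem mem_of_rank {x : Fin 160} {a : Face} {C : Set Face} (hC : IsChain (· ≤ ·) C)
    (hx : fl x ⊆ C) (ha : a ∈ C) : a ∈ fl x := by
  have h0 : bot ∈ fl x := Or.inl rfl
  have h1 : v (V x) ∈ fl x := Or.inr (Or.inl rfl)
  have h2 : e (E x) ∈ fl x := Or.inr (Or.inr (Or.inl rfl))
  have h3 : f (F x) ∈ fl x := Or.inr (Or.inr (Or.inr (Or.inl rfl)))
  have h4 : top ∈ fl x := Or.inr (Or.inr (Or.inr (Or.inr rfl)))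
  cases a with
  | bot => exact h0
  | v i => rw [same_rank hC ha (hx h1) rfl]; exact h1
  | e i => rw [same_rank hC ha (hx h2) rfl]; exact h2
  | f i => rw [same_rank hC ha (hx h3) rfl]; exact h3
  | top => exact h4

theorem fl_isFlag (x : Fin 160) : IsFlag (fl x) := by
  refine ⟨fl_chain x, fun t ht hsub => Set.Subset.antisymm hsub fun a ha => ?_⟩
  exact mem_of_rank ht hsub ha

theorem mem_of_comp {C : Set Face} (hC : IsFlag C) {y : Face} (h : ∀ z ∈ C, y ≤ z ∨ z ≤ y) :
    y ∈ C := by
  have h1 : IsChain (· ≤ ·) (insert y C) := hC.1.insert fun b hb _ => h b hb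
  rw [hC.2 h1 (Set.subset_insert y C)]
  exact Set.mem_insert y C

theorem flag_eq {C : Set Face} (hC : IsFlag C) : ∃ x, C = fl x := by
  have hb : bot ∈ C := mem_of_comp hC fun z _ => Or.inl (bot_le' z)
  have ht : top ∈ C := mem_of_comp hC fun z _ => Or.inr (le_top' z)
  have uv : ∀ {i i'}, v i ∈ C → v i' ∈ C → i = i' := fun h h' => by
    have := same_rank hC.1 h h' rfl
    exact Face.v.inj this
  have ue : ∀ {i i'}, e i ∈ C → e i' ∈ C → i = i' := fun h h' => by
    have := same_rank hC.1 h h' rfl
    exact Face.e.inj this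
  have uf : ∀ {i i'}, f i ∈ C → f i' ∈ C → i = i' := fun h h' => by
    have := same_rank hC.1 h h' rfl
    exact Face.f.inj this
  have ve : ∀ {i j}, v i ∈ C → e j ∈ C → ∃ x, V x = i ∧ E x = j := fun h h' => by
    rcases hC.1 h h' (by simp) with h1 | h1
    · exact h1
    · exact absurd h1 (e_le_v _ _)
  have vf : ∀ {i j}, v i ∈ C → f j ∈ C → ∃ x, V x = i ∧ F x = j := fun h h' => by
    rcases hC.1 h h' (by simp) with h1 | h1
    · exact h1
    · exact absurd h1 (f_le_v _ _)
  have ef : ∀ {i j}, e i ∈ C → f j ∈ C → ∃ x, E x = i ∧ F x = j := fun h h' => by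
    rcases hC.1 h h' (by simp) with h1 | h1
    · exact h1
    · exact absurd h1 (f_le_e _ _)
  -- an edge
  obtain ⟨j, hj⟩ : ∃ j, e j ∈ C := by
    by_contra hne
    push Not at hne
    have key : ∀ x : Fin 160, (∀ i, v i ∈ C → V x = i) → (∀ k, f k ∈ C → F x = k) → False := by
      intro x h1 h2
      refine hne (E x) (mem_of_comp hC fun z hz => ?_)
      cases z with
      | bot => exact Or.inr (bot_le' _)
      | top => exact Or.inl (le_top' _)
      | v i => exact Or.inr ⟨x, h1 i hz, rfl⟩
      | e i => exact absurd hz (hne i)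
      | f k => exact Or.inl ⟨x, rfl, h2 k hz⟩
    by_cases hv : ∃ i, v i ∈ C
    · obtain ⟨i, hi⟩ := hv
      by_cases hf : ∃ k, f k ∈ C
      · obtain ⟨k, hk⟩ := hf
        obtain ⟨x, h1, h2⟩ := vf hi hk
        exact key x (fun i' hi' => h1.trans (uv hi hi')) fun k' hk' => h2.trans (uf hk hk')
      · exact key _ (fun i' hi' => (surjV i).trans (uv hi hi')) fun k hk => absurd ⟨k, hk⟩ hf
    · by_cases hf : ∃ k, f k ∈ C
      · obtain ⟨k, hk⟩ := hf
        exact key _ (fun i hi => absurd ⟨i, hi⟩ hv) fun k' hk' => (surjF k).trans (uf hk hk')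
      · exact key 0 (fun i hi => absurd ⟨i, hi⟩ hv) fun k hk => absurd ⟨k, hk⟩ hf
  -- a vertex
  obtain ⟨i, hi⟩ : ∃ i, v i ∈ C := by
    by_contra hne
    push Not at hne
    have key : ∀ x : Fin 160, E x = j → (∀ k, f k ∈ C → F x = k) → False := by
      intro x h1 h2
      refine hne (V x) (mem_of_comp hC fun z hz => ?_)
      cases z with
      | bot => exact Or.inr (bot_le' _)
      | top => exact Or.inl (le_top' _)
      | v i => exact absurd hz (hne i)
      | e i => exact Or.inl ⟨x, rfl, h1.trans (ue hj hz)⟩
      | f k => exact Or.inl ⟨x, rfl, h2 k hz⟩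
    by_cases hf : ∃ k, f k ∈ C
    · obtain ⟨k, hk⟩ := hf
      obtain ⟨x, h1, h2⟩ := ef hj hk
      exact key x h1 fun k' hk' => h2.trans (uf hk hk')
    · exact key _ (surjE j) fun k hk => absurd ⟨k, hk⟩ hf
  -- a face
  obtain ⟨k, hk⟩ : ∃ k, f k ∈ C := by
    by_contra hne
    push Not at hne
    obtain ⟨x, h1, h2⟩ := ve hi hj
    refine hne (F x) (mem_of_comp hC fun z hz => ?_)
    cases z with
    | bot => exact Or.inr (bot_le' _)
    | top => exact Or.inl (le_top' _)
    | v i' => exact Or.inr ⟨x, h1.trans (uv hi hz), rfl⟩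
    | e j' => exact Or.inr ⟨x, h2.trans (ue hj hz), rfl⟩
    | f k => exact absurd hz (hne k)
  obtain ⟨x, h1, h2⟩ := ve hi hj
  obtain ⟨y, h3, h4⟩ := ef hj hk
  obtain ⟨z, h5, h6, h7⟩ := mix x y (h2.trans h3.symm)
  have hsub : fl z ⊆ C := by
    intro a ha
    rw [mem_fl] at ha
    rcases ha with rfl | rfl | rfl | rfl | rfl
    · exact hb
    · rw [h5, h1]; exact hi
    · rw [h6, h2]; exact hj
    · rw [h7, h4]; exact hk
    · exact ht
  exact ⟨z, Set.Subset.antisymm (fun a ha => mem_of_rank hC.1 hsub ha) hsub⟩

theorem fl_ncard (x : Fin 160) : (fl x).ncard = 5 := by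
  unfold fl
  rw [Set.ncard_insert_of_notMem (by simp), Set.ncard_insert_of_notMem (by simp),
    Set.ncard_insert_of_notMem (by simp), Set.ncard_insert_of_notMem (by simp), Set.ncard_singleton]

theorem diff0 (x : Fin 160) : fl x \ fl (r0 x) = {v (V x)} := by
  obtain ⟨h1, h2, h3⟩ := N0 x
  ext a
  simp only [Set.mem_sdiff, mem_fl, h2, h3, Set.mem_singleton_iff]
  constructor
  · rintro ⟨rfl | rfl | rfl | rfl | rfl, h⟩ <;> simp at h ⊢
  · rintro rfl
    simp [Ne.symm h1]

theorem diff1 (x : Fin 160) : fl x \ fl (r1 x) = {e (E x)} := by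
  obtain ⟨h1, h2, h3⟩ := N1 x
  ext a
  simp only [Set.mem_sdiff, mem_fl, h1, h3, Set.mem_singleton_iff]
  constructor
  · rintro ⟨rfl | rfl | rfl | rfl | rfl, h⟩ <;> simp at h ⊢
  · rintro rfl
    simp [Ne.symm h2]

theorem diff2 (x : Fin 160) : fl x \ fl (r2 x) = {f (F x)} := by
  obtain ⟨h1, h2, h3⟩ := N2 x
  ext a
  simp only [Set.mem_sdiff, mem_fl, h1, h2, Set.mem_singleton_iff]
  constructor
  · rintro ⟨rfl | rfl | rfl | rfl | rfl, h⟩ <;> simp at h ⊢
  · rintro rfl
    simp [Ne.symm h3]

theorem adj0 (x : Fin 160) : Adjacent (fl x) (fl (r0 x)) := by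
  refine ⟨by rw [diff0]; exact Set.ncard_singleton _, ?_⟩
  have := diff0 (r0 x)
  rw [(invo x).1] at this
  rw [this]; exact Set.ncard_singleton _

theorem adj1 (x : Fin 160) : Adjacent (fl x) (fl (r1 x)) := by
  refine ⟨by rw [diff1]; exact Set.ncard_singleton _, ?_⟩
  have := diff1 (r1 x)
  rw [(invo x).2.1] at this
  rw [this]; exact Set.ncard_singleton _

theorem adj2 (x : Fin 160) : Adjacent (fl x) (fl (r2 x)) := by
  refine ⟨by rw [diff2]; exact Set.ncard_singleton _, ?_⟩
  have := diff2 (r2 x)
  rw [(invo x).2.2] at this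
  rw [this]; exact Set.ncard_singleton _

/-- the steps between flags which contain `C` -/
def St (C : Set Face) (A B : Set Face) : Prop :=
  IsFlag A ∧ IsFlag B ∧ Adjacent A B ∧ C ⊆ A ∧ C ⊆ B

theorem St_symm (C : Set Face) : ∀ A B, St C A B → St C B A :=
  fun _ _ ⟨h1, h2, h3, h4, h5⟩ => ⟨h2, h1, ⟨h3.2, h3.1⟩, h5, h4⟩

theorem sym_gen {C : Set Face} {A B : Set Face} (h : Relation.ReflTransGen (St C) A B) :
    Relation.ReflTransGen (St C) B A := by
  induction h with
  | refl => exact Relation.ReflTransGen.refl
  | tail _ h2 ih => exact Relation.ReflTransGen.head (St_symm C _ _ h2) ih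

/-- descent to a root -/
theorem descent {C : Set Face} (Q : Fin 160 → Prop) (root : Fin 160) (h : Fin 160 → ℕ)
    (hC : ∀ x, Q x → C ⊆ fl x)
    (hs : ∀ x, Q x → x = root ∨ (Q (r0 x) ∧ h (r0 x) < h x) ∨ (Q (r1 x) ∧ h (r1 x) < h x) ∨
      (Q (r2 x) ∧ h (r2 x) < h x)) :
    ∀ (n : ℕ) (x : Fin 160), h x ≤ n → Q x → Relation.ReflTransGen (St C) (fl x) (fl root) := by
  intro n
  induction n with
  | zero =>
    intro x hx hQ
    rcases hs x hQ with h1 | ⟨-, h1⟩ | ⟨-, h1⟩ | ⟨-, h1⟩
    · rw [h1]
    · omega
    · omega
    · omega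
  | succ n ih =>
    intro x hx hQ
    rcases hs x hQ with h1 | ⟨h2, h1⟩ | ⟨h2, h1⟩ | ⟨h2, h1⟩
    · rw [h1]
    · exact Relation.ReflTransGen.head ⟨fl_isFlag _, fl_isFlag _, adj0 x, hC x hQ, hC _ h2⟩
        (ih _ (by omega) h2)
    · exact Relation.ReflTransGen.head ⟨fl_isFlag _, fl_isFlag _, adj1 x, hC x hQ, hC _ h2⟩
        (ih _ (by omega) h2)
    · exact Relation.ReflTransGen.head ⟨fl_isFlag _, fl_isFlag _, adj2 x, hC x hQ, hC _ h2⟩
        (ih _ (by omega) h2)

theorem conn_of {C : Set Face} {x y : Fin 160} (root : Fin 160)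
    (h1 : Relation.ReflTransGen (St C) (fl x) (fl root))
    (h2 : Relation.ReflTransGen (St C) (fl y) (fl root)) :
    Relation.ReflTransGen (St C) (fl x) (fl y) :=
  h1.trans (sym_gen h2)

theorem inter_sub {x y z : Fin 160} (hv : V x = V y → V z = V x) (he : E x = E y → E z = E x)
    (hf : F x = F y → F z = F x) : fl x ∩ fl y ⊆ fl z := by
  rintro a ⟨ha, hb⟩
  rw [mem_fl] at ha hb ⊢
  rcases ha with rfl | rfl | rfl | rfl | rfl
  · exact Or.inl rfl
  · simp only [reduceCtorEq, Face.v.injEq, false_or, or_false] at hb ⊢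
    exact (hv hb).symm
  · simp only [reduceCtorEq, Face.e.injEq, false_or, or_false] at hb ⊢
    exact (he hb).symm
  · simp only [reduceCtorEq, Face.f.injEq, false_or, or_false] at hb ⊢
    exact (hf hb).symm
  · simp

theorem connected (x y : Fin 160) :
    Relation.ReflTransGen (St (fl x ∩ fl y)) (fl x) (fl y) := by
  have one : Adjacent (fl x) (fl y) → Relation.ReflTransGen (St (fl x ∩ fl y)) (fl x) (fl y) :=
    fun h => Relation.ReflTransGen.single
      ⟨fl_isFlag _, fl_isFlag _, h, Set.inter_subset_left, Set.inter_subset_right⟩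
  by_cases hv : V x = V y
  · by_cases he : E x = E y
    · rcases U2 x y hv he with h | h
      · rw [h]
      · exact one (by rw [h]; exact adj2 x)
    · by_cases hf : F x = F y
      · rcases U1 x y hv hf with h | h
        · rw [h]
        · exact one (by rw [h]; exact adj1 x)
      · -- only the vertex is common
        have key := descent (C := fl x ∩ fl y) (fun z => V z = V x)
          (Fin.ofNat 160 (tab rootV 8 (V x).1)) (fun z => tab hV 8 z.1)
          (fun z hz => inter_sub (fun _ => hz) (fun h => absurd h he) (fun h => absurd h hf))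
          (fun z hz => by
            rcases potV z with h | h | h
            · rw [hz] at h
              exact Or.inl h
            · exact Or.inr (Or.inr (Or.inl ⟨(N1 z).1.trans hz, h⟩))
            · exact Or.inr (Or.inr (Or.inr ⟨(N2 z).1.trans hz, h⟩)))
        exact conn_of _ (key _ x le_rfl rfl) (key _ y le_rfl hv.symm)
  · by_cases he : E x = E y
    · rcases EE x y he with h | h | h | h
      · rw [h]
      · exact one (by rw [h]; exact adj0 x)
      · exact absurd (by rw [h, (N2 x).1]) hv
      · have hf : F x ≠ F y := by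
          rw [h, (N0 (r2 x)).2.2]
          exact Ne.symm (N2 x).2.2
        have h1 : fl x ∩ fl y ⊆ fl (r2 x) :=
          inter_sub (fun h => absurd h hv) (fun _ => (N2 x).2.1) (fun h => absurd h hf)
        refine Relation.ReflTransGen.head
          ⟨fl_isFlag _, fl_isFlag _, adj2 x, Set.inter_subset_left, h1⟩
          (Relation.ReflTransGen.single ⟨fl_isFlag _, fl_isFlag _, ?_, h1, Set.inter_subset_right⟩)
        rw [h]
        exact adj0 (r2 x)
    · by_cases hf : F x = F y
      · have key := descent (C := fl x ∩ fl y) (fun z => F z = F x)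
          (Fin.ofNat 160 (tab rootF 8 (F x).1)) (fun z => tab hF 8 z.1)
          (fun z hz => inter_sub (fun h => absurd h hv) (fun h => absurd h he) (fun _ => hz))
          (fun z hz => by
            rcases potF z with h | h | h
            · rw [hz] at h
              exact Or.inl h
            · exact Or.inr (Or.inl ⟨(N0 z).2.2.trans hz, h⟩)
            · exact Or.inr (Or.inr (Or.inl ⟨(N1 z).2.2.trans hz, h⟩)))
        exact conn_of _ (key _ x le_rfl rfl) (key _ y le_rfl hf.symm)
      · have key := descent (C := fl x ∩ fl y) (fun _ => True) 0 (fun z => tab hA 8 z.1)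
          (fun z _ => inter_sub (fun h => absurd h hv) (fun h => absurd h he)
            (fun h => absurd h hf))
          (fun z _ => by
            rcases potA z with h | h | h | h
            · exact Or.inl h
            · exact Or.inr (Or.inl ⟨trivial, h⟩)
            · exact Or.inr (Or.inr (Or.inl ⟨trivial, h⟩))
            · exact Or.inr (Or.inr (Or.inr ⟨trivial, h⟩)))
        exact conn_of _ (key _ x le_rfl trivial) (key _ y le_rfl trivial)

theorem isPolyhedron : IsPolyhedron Face rk where
  strictMono := rk_strict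
  range := rk_range
  least := ⟨bot, bot_le', fun y hy => le_antisymm (hy bot) (bot_le' y)⟩
  greatest := ⟨top, le_top', fun y hy => le_antisymm (le_top' y) (hy top)⟩
  flag_card := by
    intro Φ hΦ
    obtain ⟨x, rfl⟩ := flag_eq hΦ
    exact fl_ncard x
  diamond := by
    intro A B hAB hr
    cases A with
    | bot =>
      cases B with
      | e j =>
        have : {H : Face | bot ≤ H ∧ H ≤ e j ∧ rk H = rk bot + 1} =
            {v (V (Fin.ofNat 160 (4 * j.1))), v (V (Fin.ofNat 160 (4 * j.1 + 2)))} := by
          ext H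
          simp only [Set.mem_ofPred_eq, bot_le', true_and, Set.mem_insert_iff,
            Set.mem_singleton_iff]
          cases H <;> simp [rk]
          rw [VE_iff]
          exact or_congr eq_comm eq_comm
        rw [this, Set.ncard_pair]
        intro h
        exact (ne4 j).1 (Face.v.inj h)
      | bot => simp [rk] at hr
      | v i => simp [rk] at hr
      | f i => simp [rk] at hr
      | top => simp [rk] at hr
    | v i =>
      cases B with
      | f k =>
        obtain ⟨x, rfl, rfl⟩ := hAB
        have : {H : Face | v (V x) ≤ H ∧ H ≤ f (F x) ∧ rk H = rk (v (V x)) + 1} =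
            e '' (↑(Finset.univ.filter (fun j : Fin 40 =>
              (V (Fin.ofNat 160 (4 * j.1)) = V x ∨ V (Fin.ofNat 160 (4 * j.1 + 2)) = V x) ∧
              (F (Fin.ofNat 160 (4 * j.1)) = F x ∨ F (Fin.ofNat 160 (4 * j.1 + 1)) = F x))) :
                Set (Fin 40)) := by
          ext H
          simp only [Set.mem_ofPred_eq, Set.mem_image, Finset.coe_filter, Finset.mem_univ, true_and]
          constructor
          · rintro ⟨h1, h2, h3⟩
            cases H with
            | e j => exact ⟨j, ⟨(VE_iff _ _).1 h1, (EF_iff _ _).1 h2⟩, rfl⟩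
            | bot => simp [rk] at h3
            | v i => simp [rk] at h3
            | f i => simp [rk] at h3
            | top => simp [rk] at h3
          · rintro ⟨j, ⟨h1, h2⟩, rfl⟩
            exact ⟨(VE_iff _ _).2 h1, (EF_iff _ _).2 h2, rfl⟩
        rw [this, Set.ncard_image_of_injective _ (fun a b h => Face.e.inj h), Set.ncard_coe_finset]
        exact card_VF0 x
      | bot => simp [rk] at hr
      | v i => simp [rk] at hr
      | e i => simp [rk] at hr
      | top => simp [rk] at hr
    | e j =>
      cases B with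
      | top =>
        have : {H : Face | e j ≤ H ∧ H ≤ top ∧ rk H = rk (e j) + 1} =
            {f (F (Fin.ofNat 160 (4 * j.1))), f (F (Fin.ofNat 160 (4 * j.1 + 1)))} := by
          ext H
          simp only [Set.mem_ofPred_eq, le_top', true_and, Set.mem_insert_iff,
            Set.mem_singleton_iff]
          cases H <;> simp [rk]
          rw [EF_iff]
          exact or_congr eq_comm eq_comm
        rw [this, Set.ncard_pair]
        intro h
        exact (ne4 j).2 (Face.f.inj h)
      | bot => simp [rk] at hr
      | v i => simp [rk] at hr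
      | e i => simp [rk] at hr
      | f i => simp [rk] at hr
    | f k => cases B <;> simp [rk] at hr
    | top => cases B <;> simp [rk] at hr
  connected := by
    intro Φ Ψ hΦ hΨ
    obtain ⟨x, rfl⟩ := flag_eq hΦ
    obtain ⟨y, rfl⟩ := flag_eq hΨ
    exact connected x y

theorem isEquivelar : IsEquivelar Face rk 5 5 := by
  constructor
  · intro G hG
    cases G with
    | f k =>
      constructor
      · have : {H : Face | rk H = 0 ∧ H ≤ f k} =
            v '' (↑((Finset.univ.filter (fun x : Fin 160 => F x = k)).image V) : Set (Fin 16)) := by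
          ext H
          simp only [Set.mem_ofPred_eq, Set.mem_image, Finset.coe_image, Finset.coe_filter,
            Finset.mem_univ, true_and]
          constructor
          · rintro ⟨h1, h2⟩
            cases H with
            | v i => obtain ⟨x, h3, h4⟩ := h2; exact ⟨i, ⟨x, h4, h3⟩, rfl⟩
            | bot => simp [rk] at h1
            | e i => simp [rk] at h1
            | f i => simp [rk] at h1
            | top => simp [rk] at h1
          · rintro ⟨i, ⟨x, h3, h4⟩, rfl⟩
            exact ⟨rfl, ⟨x, h4, h3⟩⟩
        rw [this, Set.ncard_image_of_injective _ (fun a b h => Face.v.inj h), Set.ncard_coe_finset]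
        exact card_FV k
      · have : {H : Face | rk H = 1 ∧ H ≤ f k} =
            e '' (↑((Finset.univ.filter (fun x : Fin 160 => F x = k)).image E) : Set (Fin 40)) := by
          ext H
          simp only [Set.mem_ofPred_eq, Set.mem_image, Finset.coe_image, Finset.coe_filter,
            Finset.mem_univ, true_and]
          constructor
          · rintro ⟨h1, h2⟩
            cases H with
            | e i => obtain ⟨x, h3, h4⟩ := h2; exact ⟨i, ⟨x, h4, h3⟩, rfl⟩
            | bot => simp [rk] at h1
            | v i => simp [rk] at h1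
            | f i => simp [rk] at h1
            | top => simp [rk] at h1
          · rintro ⟨i, ⟨x, h3, h4⟩, rfl⟩
            exact ⟨rfl, ⟨x, h4, h3⟩⟩
        rw [this, Set.ncard_image_of_injective _ (fun a b h => Face.e.inj h), Set.ncard_coe_finset]
        exact card_FE k
    | bot => simp [rk] at hG
    | v i => simp [rk] at hG
    | e i => simp [rk] at hG
    | top => simp [rk] at hG
  · intro G hG
    cases G with
    | v k =>
      constructor
      · have : {H : Face | rk H = 1 ∧ v k ≤ H} =
            e '' (↑((Finset.univ.filter (fun x : Fin 160 => V x = k)).image E) : Set (Fin 40)) := by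
          ext H
          simp only [Set.mem_ofPred_eq, Set.mem_image, Finset.coe_image, Finset.coe_filter,
            Finset.mem_univ, true_and]
          constructor
          · rintro ⟨h1, h2⟩
            cases H with
            | e i => obtain ⟨x, h3, h4⟩ := h2; exact ⟨i, ⟨x, h3, h4⟩, rfl⟩
            | bot => simp [rk] at h1
            | v i => simp [rk] at h1
            | f i => simp [rk] at h1
            | top => simp [rk] at h1
          · rintro ⟨i, ⟨x, h3, h4⟩, rfl⟩
            exact ⟨rfl, ⟨x, h3, h4⟩⟩
        rw [this, Set.ncard_image_of_injective _ (fun a b h => Face.e.inj h), Set.ncard_coe_finset]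
        exact card_VE k
      · have : {H : Face | rk H = 2 ∧ v k ≤ H} =
            f '' (↑((Finset.univ.filter (fun x : Fin 160 => V x = k)).image F) : Set (Fin 16)) := by
          ext H
          simp only [Set.mem_ofPred_eq, Set.mem_image, Finset.coe_image, Finset.coe_filter,
            Finset.mem_univ, true_and]
          constructor
          · rintro ⟨h1, h2⟩
            cases H with
            | f i => obtain ⟨x, h3, h4⟩ := h2; exact ⟨i, ⟨x, h3, h4⟩, rfl⟩
            | bot => simp [rk] at h1
            | v i => simp [rk] at h1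
            | e i => simp [rk] at h1
            | top => simp [rk] at h1
          · rintro ⟨i, ⟨x, h3, h4⟩, rfl⟩
            exact ⟨rfl, ⟨x, h3, h4⟩⟩
        rw [this, Set.ncard_image_of_injective _ (fun a b h => Face.f.inj h), Set.ncard_coe_finset]
        exact card_VF k
    | bot => simp [rk] at hG
    | e i => simp [rk] at hG
    | f i => simp [rk] at hG
    | top => simp [rk] at hG

/-! ## A duality -/

/-- the duality -/
def D : Face → Face
  | bot => top
  | v i => f (dv i)
  | e j => e (de j)
  | f k => v (df k)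
  | top => bot

theorem d_surj (y : Fin 160) : ∃ x, d x = y := ⟨d (d (d y)), d_four y⟩

theorem D_inj : Function.Injective D := by
  intro a b h
  cases a <;> cases b <;> simp only [D, reduceCtorEq, Face.f.injEq, Face.e.injEq, Face.v.injEq] at h ⊢
  · exact dv_inj h
  · exact de_inj h
  · exact df_inj h

theorem D_surj : Function.Surjective D := by
  intro a
  cases a with
  | bot => exact ⟨top, rfl⟩
  | top => exact ⟨bot, rfl⟩
  | v i =>
    obtain ⟨k, hk⟩ := (Finite.injective_iff_surjective.1 df_inj) i
    exact ⟨f k, by rw [D, hk]⟩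
  | e i =>
    obtain ⟨k, hk⟩ := (Finite.injective_iff_surjective.1 de_inj) i
    exact ⟨e k, by rw [D, hk]⟩
  | f i =>
    obtain ⟨k, hk⟩ := (Finite.injective_iff_surjective.1 dv_inj) i
    exact ⟨v k, by rw [D, hk]⟩

theorem D_le (a b : Face) : a ≤ b ↔ D b ≤ D a := by
  cases a with
  | bot => cases b <;> simp [D]
  | top => cases b <;> simp [D]
  | v i =>
    cases b with
    | bot => simp [D]
    | top => simp [D]
    | v j => simp only [D, v_le_v, f_le_f]; exact ⟨fun h => by rw [h], fun h => (dv_inj h).symm⟩
    | e j =>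
      simp only [D, v_le_e, e_le_f]
      constructor
      · rintro ⟨x, rfl, rfl⟩
        exact ⟨d x, (d_class x).2.1, (d_class x).1⟩
      · rintro ⟨y, h1, h2⟩
        obtain ⟨x, rfl⟩ := d_surj y
        exact ⟨x, dv_inj ((d_class x).1.symm.trans h2), de_inj ((d_class x).2.1.symm.trans h1)⟩
    | f j =>
      simp only [D, v_le_f]
      constructor
      · rintro ⟨x, rfl, rfl⟩
        exact ⟨d x, (d_class x).2.2, (d_class x).1⟩
      · rintro ⟨y, h1, h2⟩
        obtain ⟨x, rfl⟩ := d_surj y
        exact ⟨x, dv_inj ((d_class x).1.symm.trans h2), df_inj ((d_class x).2.2.symm.trans h1)⟩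
  | e i =>
    cases b with
    | bot => simp [D]
    | top => simp [D]
    | v j => simp [D]
    | e j => simp only [D, e_le_e]; exact ⟨fun h => by rw [h], fun h => (de_inj h).symm⟩
    | f j =>
      simp only [D, v_le_e, e_le_f]
      constructor
      · rintro ⟨x, rfl, rfl⟩
        exact ⟨d x, (d_class x).2.2, (d_class x).2.1⟩
      · rintro ⟨y, h1, h2⟩
        obtain ⟨x, rfl⟩ := d_surj y
        exact ⟨x, de_inj ((d_class x).2.1.symm.trans h2), df_inj ((d_class x).2.2.symm.trans h1)⟩
  | f i =>
    cases b with
    | bot => simp [D]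
    | top => simp [D]
    | v j => simp [D]
    | e j => simp [D]
    | f j => simp only [D, v_le_v, f_le_f]; exact ⟨fun h => by rw [h], fun h => (df_inj h).symm⟩

theorem exists_duality : ∃ δ : Face ≃ Face, IsDuality δ :=
  ⟨Equiv.ofBijective D ⟨D_inj, D_surj⟩, D_le⟩

/-! ## There is no polarity -/

theorem V_surj (i : Fin 16) : ∃ x, V x = i := ⟨_, surjV i⟩
theorem E_surj (i : Fin 40) : ∃ x, E x = i := ⟨_, surjE i⟩
theorem F_surj (i : Fin 16) : ∃ x, F x = i := ⟨_, surjF i⟩

theorem rk_ge (a : Face) : -1 ≤ rk a := by cases a <;> simp [rk]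
theorem rk_le (a : Face) : rk a ≤ 3 := by cases a <;> simp [rk]

theorem dual_ranks {δ : Face ≃ Face} (h : IsDuality δ) (x : Fin 160) :
    rk (δ (v (V x))) = 2 ∧ rk (δ (e (E x))) = 1 ∧ rk (δ (f (F x))) = 0 := by
  have lt : ∀ {a b : Face}, a < b → rk (δ b) < rk (δ a) := by
    intro a b hab
    refine rk_strict (lt_of_le_of_ne ((h a b).1 hab.le) fun e => ?_)
    exact hab.ne' (δ.injective e)
  have h0 : bot < v (V x) := lt_of_le_of_ne (bot_le' _) (by simp)
  have h1 : v (V x) < e (E x) := lt_of_le_of_ne ⟨x, rfl, rfl⟩ (by simp)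
  have h2 : e (E x) < f (F x) := lt_of_le_of_ne ⟨x, rfl, rfl⟩ (by simp)
  have h3 : f (F x) < top := lt_of_le_of_ne (le_top' _) (by simp)
  have a0 := lt h0
  have a1 := lt h1
  have a2 := lt h2
  have a3 := lt h3
  have b0 := rk_ge (δ top)
  have b1 := rk_le (δ bot)
  omega

theorem no_polarity {δ : Face ≃ Face} (h : IsDuality δ) (hinv : ∀ a, δ (δ a) = a) : False := by
  have ha : ∀ i : Fin 16, ∃ k, δ (v i) = f k := by
    intro i
    obtain ⟨x, rfl⟩ := V_surj i
    have := (dual_ranks h x).1
    cases h1 : δ (v (V x)) <;> rw [h1] at this <;> simp [rk] at this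
    exact ⟨_, rfl⟩
  have hb : ∀ i : Fin 40, ∃ k, δ (e i) = e k := by
    intro i
    obtain ⟨x, rfl⟩ := E_surj i
    have := (dual_ranks h x).2.1
    cases h1 : δ (e (E x)) <;> rw [h1] at this <;> simp [rk] at this
    exact ⟨_, rfl⟩
  have hc : ∀ i : Fin 16, ∃ k, δ (f i) = v k := by
    intro i
    obtain ⟨x, rfl⟩ := F_surj i
    have := (dual_ranks h x).2.2
    cases h1 : δ (f (F x)) <;> rw [h1] at this <;> simp [rk] at this
    exact ⟨_, rfl⟩
  choose a ha using ha
  choose b hb using hb
  choose c hc using hc
  have a_inj : Function.Injective a := fun i j e => by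
    have : δ (v i) = δ (v j) := by rw [ha, ha, e]
    exact Face.v.inj (δ.injective this)
  have b_inj : Function.Injective b := fun i j e => by
    have : δ (Face.e i) = δ (Face.e j) := by rw [hb, hb, e]
    exact Face.e.inj (δ.injective this)
  have c_inj : Function.Injective c := fun i j e => by
    have : δ (f i) = δ (f j) := by rw [hc, hc, e]
    exact Face.f.inj (δ.injective this)
  have ca : ∀ i, c (a i) = i := fun i => by
    have := hinv (v i)
    rw [ha, hc] at this
    exact Face.v.inj this
  have ac : ∀ i, a (c i) = i := fun i => by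
    have := hinv (f i)
    rw [hc, ha] at this
    exact Face.f.inj this
  have bb : ∀ i, b (b i) = i := fun i => by
    have := hinv (e i)
    rw [hb, hb] at this
    exact Face.e.inj this
  -- the map on flags
  have hG : ∀ x, ∃ z, V z = c (F x) ∧ E z = b (E x) ∧ F z = a (V x) := by
    intro x
    have h1 : f (F x) ≥ e (E x) := ⟨x, rfl, rfl⟩
    have h2 := (h _ _).1 h1
    rw [hc, hb] at h2
    obtain ⟨y, h3, h4⟩ := h2
    have h5 : e (E x) ≥ v (V x) := ⟨x, rfl, rfl⟩
    have h6 := (h _ _).1 h5
    rw [hb, ha] at h6
    obtain ⟨y', h7, h8⟩ := h6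
    obtain ⟨z, h9, h10, h11⟩ := mix y y' (h4.trans h7.symm)
    exact ⟨z, h9.trans h3, h10.trans h4, h11.trans h8⟩
  choose G hG1 hG2 hG3 using hG
  have uniq : ∀ x y : Fin 160, V x = V y → E x = E y → F x = F y → x = y := by
    intro x y h1 h2 h3
    rcases U0 x y h2 h3 with h4 | h4
    · exact h4
    · exact absurd (by rw [h1, h4]) (N0 x).1
  have GG : ∀ x, G (G x) = x := by
    intro x
    refine uniq _ _ ?_ ?_ ?_
    · rw [hG1, hG3, ca]
    · rw [hG2, hG2, bb]
    · rw [hG3, hG1, ac]
  have G0 : ∀ x, G (r0 x) = r2 (G x) := by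
    intro x
    rcases U2 (G x) (G (r0 x)) (by rw [hG1, hG1, (N0 x).2.2]) (by rw [hG2, hG2, (N0 x).2.1])
      with h1 | h1
    · have h2 := congrArg F h1
      rw [hG3, hG3] at h2
      exact absurd (a_inj h2).symm (N0 x).1
    · exact h1
  have G1 : ∀ x, G (r1 x) = r1 (G x) := by
    intro x
    rcases U1 (G x) (G (r1 x)) (by rw [hG1, hG1, (N1 x).2.2]) (by rw [hG3, hG3, (N1 x).1])
      with h1 | h1
    · have h2 := congrArg E h1
      rw [hG2, hG2] at h2
      exact absurd (b_inj h2).symm (N1 x).2.1
    · exact h1
  have G2 : ∀ x, G (r2 x) = r0 (G x) := by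
    intro x
    rcases U0 (G x) (G (r2 x)) (by rw [hG2, hG2, (N2 x).2.1]) (by rw [hG3, hG3, (N2 x).1])
      with h1 | h1
    · have h2 := congrArg V h1
      rw [hG1, hG1] at h2
      exact absurd (c_inj h2).symm (N2 x).2.2
    · exact h1
  have Gr : ∀ (i : Fin 3) (x : Fin 160), G (r i x) = r (2 - i) (G x) := by
    intro i x
    fin_cases i
    · exact G0 x
    · exact G1 x
    · exact G2 x
  have Gw : ∀ (w : List (Fin 3)) (x : Fin 160), G (act w x) = act' w (G x) := by
    intro w
    induction w with
    | nil => intro x; rfl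
    | cons i w ih =>
      intro x
      have h1 : act (i :: w) x = act w (r i x) := rfl
      have h2 : act' (i :: w) (G x) = act' w (r (2 - i) (G x)) := rfl
      rw [h1, h2, ih, Gr]
  have hC := Gw wC 0
  rw [closedC] at hC
  rcases cert (G 0) with h1 | h1 | h1
  · have h2 := Gw wA 0
    rw [actA.1, ← h1, GG] at h2
    rw [h1] at h2
    exact actA.2 h2.symm
  · have h2 := Gw wB 0
    rw [actB.1, ← h1, GG] at h2
    rw [h1] at h2
    exact actB.2 h2.symm
  · exact h1 hC.symm

/-- a numbering of the faces -/
def code : Face → Fin 74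
  | bot => 0
  | top => 1
  | v i => ⟨2 + i.1, by omega⟩
  | e j => ⟨18 + j.1, by omega⟩
  | f k => ⟨58 + k.1, by omega⟩

theorem code_inj : Function.Injective code := by
  intro a b h
  have h' := congrArg Fin.val h
  cases a <;> cases b <;> simp only [code, reduceCtorEq, Face.v.injEq, Face.e.injEq, Face.f.injEq,
    Fin.ext_iff] at h' ⊢ <;> omega

instance : Finite Face := Finite.of_injective code code_inj

end Pool.Agent.Q274.Pol
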